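import Pool.Agent.Lib.Pf8fe2f.Main

/-!
# MP_f8fe2f_lc: finite index Borel extensions of hypersmooth equivalence relations

If `E` is a hypersmooth equivalence relation on a standard Borel space (its classes may be
uncountable) and `F` is a Borel equivalence relation containing `E` such that every `F`-class is
the union of finitely many `E`-classes, then `F` is hypersmooth.
-/

open Set MeasureTheory

namespace Pool.Agent.Results.MP_f8fe2f_lc.FiniteIndex

/-- `E` is smooth: it is the equality of the values of some Borel map into a standard Borel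
space. -/
def Smooth {X : Type*} [MeasurableSpace X] (E : X → X → Prop) : Prop :=
  ∃ (Y : Type) (_ : MeasurableSpace Y) (_ : StandardBorelSpace Y) (f : X → Y), Measurable f ∧
    ∀ x y, E x y ↔ f x = f y

/-- `E` is hypersmooth: it is the union of an increasing sequence of smooth relations. -/
def Hypersmooth {X : Type*} [MeasurableSpace X] (E : X → X → Prop) : Prop :=
  ∃ En : ℕ → X → X → Prop, (∀ n, Smooth (En n)) ∧ (∀ n x y, En n x y → En (n + 1) x y) ∧
    ∀ x y, E x y ↔ ∃ n, En n x y

/-- Every finite index Borel extension of a hypersmooth equivalence relation is hypersmooth. -/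
theorem result {X : Type*} [MeasurableSpace X] [StandardBorelSpace X]
    (E F : X → X → Prop) (hE : Hypersmooth E) (hF : Equivalence F)
    (hFm : MeasurableSet {p : X × X | F p.1 p.2}) (hEF : ∀ x y, E x y → F x y)
    (hfin : ∀ x, ∃ s : Set X, s.Finite ∧ ∀ y, F x y → ∃ z ∈ s, E z y) : Hypersmooth F := by
  obtain ⟨En, hEs, hEi, hE⟩ := hE
  have h1 : ∀ n, ∃ f : X → ℝ, Measurable f ∧ ∀ x y, En n x y ↔ f x = f y := by
    intro n
    obtain ⟨Y, _, _, f, hf, he⟩ := hEs n
    refine ⟨fun x => embeddingReal Y (f x),
      (measurableEmbedding_embeddingReal Y).measurable.comp hf, fun x y => ?_⟩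
    rw [he]
    exact (measurableEmbedding_embeddingReal Y).injective.eq_iff.symm
  choose f hf he using h1
  obtain ⟨c, h1, h2, h3⟩ := Pool.Agent.Pf8fe2f.main f hf
    (fun n x y h => (he (n + 1) x y).1 (hEi n x y ((he n x y).2 h))) F hF hFm
    (fun n x y h => hEF x y ((hE x y).2 ⟨n, (he n x y).2 h⟩))
    (fun x => by
      obtain ⟨s, hs, h⟩ := hfin x
      refine ⟨s, hs, fun y hy => ?_⟩
      obtain ⟨z, hz, hzy⟩ := h y hy
      obtain ⟨n, hn⟩ := (hE z y).1 hzy
      exact ⟨z, hz, n, (he n z y).1 hn⟩)
  exact ⟨fun n x y => c n x = c n y,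
    fun n => ⟨ℝ, inferInstance, inferInstance, c n, h1 n, fun x y => Iff.rfl⟩, h2, h3⟩

end Pool.Agent.Results.MP_f8fe2f_lc.FiniteIndex
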